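import Mathlib

/-!
# MP_2f4170_nt, Q2, the `if` direction

For `n = 8 k (k + 1)` with `k ≥ 1` the polynomial `s_n = 1 + 2 x + ... + (n + 1) x ^ n` is
reducible modulo every prime `p`.

If `p ∣ (n + 1)(n + 2)`, then `(x - 1) ^ 2 s_n` is `(1 - x ^ q) ^ p` modulo `p`. Otherwise let `α`
be a root of an irreducible reduction, in the field `K` with `p ^ n` elements. The conjugates
`α ^ (p ^ i)`, `i < n`, are distinct and are the roots. Put `y_m = α - α ^ (p ^ m)`. Then
`y_m ^ (p ^ (n - m)) = - y_{n - m}`, which gives the quadratic character of the product of the `y_m`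
in `K`; on the other hand `(n + 1) ∏ y_m = s_n'(α) = (n + 1)(n + 2) α ^ n / (α - 1)`, and the
character of `α - 1` is that of its norm `± (n + 2) / 2`.
-/

set_option autoImplicit false

namespace Pool.Agent.Results.MP_2f4170_nt.ReducibleModEveryPrime

open Polynomial Finset

/-- `s_n(x) = 1 + 2 x + 3 x ^ 2 + ... + (n + 1) x ^ n` over a commutative ring. -/
noncomputable def sR (R : Type*) [CommRing R] (n : ℕ) : R[X] :=
  ∑ k ∈ range (n + 1), C ((k : R) + 1) * X ^ k

theorem sR_ident (R : Type*) [CommRing R] (n : ℕ) :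
    (X - 1) ^ 2 * sR R n = C ((n : R) + 1) * X ^ (n + 2) - C ((n : R) + 2) * X ^ (n + 1) + 1 := by
  induction n with
  | zero =>
    have h2 : (C (2 : R)) = 2 := map_ofNat C 2
    simp [sR]
    rw [h2]
    ring
  | succ n ih =>
    have : sR R (n + 1) = sR R n + C (((n + 1 : ℕ) : R) + 1) * X ^ (n + 1) := by
      rw [sR, sum_range_succ, ← sR]
    rw [this, mul_add, ih]
    push_cast
    simp only [map_add, map_one, map_ofNat]
    ring

theorem sR_eval_one (R : Type*) [CommRing R] (n : ℕ) :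
    2 * (sR R n).eval 1 = ((n : R) + 1) * ((n : R) + 2) := by
  induction n with
  | zero => simp [sR]
  | succ n ih =>
    have : sR R (n + 1) = sR R n + C (((n + 1 : ℕ) : R) + 1) * X ^ (n + 1) := by
      rw [sR, sum_range_succ, ← sR]
    rw [this, eval_add, mul_add, ih]
    push_cast
    simp
    ring

theorem sR_coeff_zero (R : Type*) [CommRing R] (n : ℕ) : (sR R n).eval 0 = 1 := by
  induction n with
  | zero => simp [sR]
  | succ n ih =>
    have : sR R (n + 1) = sR R n + C (((n + 1 : ℕ) : R) + 1) * X ^ (n + 1) := by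
      rw [sR, sum_range_succ, ← sR]
    rw [this, eval_add, ih]
    simp

theorem sR_map {R S : Type*} [CommRing R] [CommRing S] (f : R →+* S) (n : ℕ) :
    (sR R n).map f = sR S n := by
  simp [sR, Polynomial.map_sum]

theorem sR_coeff (R : Type*) [CommRing R] (n j : ℕ) (hj : j ≤ n) :
    (sR R n).coeff j = (j : R) + 1 := by
  rw [sR, finsetSum_coeff]
  simp only [coeff_C_mul, coeff_X_pow]
  rw [Finset.sum_eq_single j]
  · simp
  · intro b _ hb
    simp [hb.symm]
  · intro h
    exact absurd (mem_range.2 (by omega)) h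

theorem sR_natDegree_le (R : Type*) [CommRing R] (n : ℕ) : (sR R n).natDegree ≤ n := by
  rw [sR]
  refine natDegree_sum_le_of_forall_le _ _ fun i hi => ?_
  refine (natDegree_C_mul_X_pow_le _ _).trans ?_
  have := mem_range.1 hi
  omega

/-- If `(X - 1) ^ 2 f = 1 - X ^ (p q)` in characteristic `p` with `p q > 4`, then `f` is reducible. -/
theorem not_irred_of_pow {p : ℕ} [Fact p.Prime] {q : ℕ} (hpq : 4 < p * q) {f : (ZMod p)[X]}
    (h : (X - 1) ^ 2 * f = 1 - X ^ (p * q)) : ¬ Irreducible f := by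
  intro hf
  have hp := (Fact.out : p.Prime)
  have hp2 := hp.two_le
  have e : (1 - X ^ (p * q) : (ZMod p)[X]) = (1 - X ^ q) ^ p := by
    rw [sub_pow_char, one_pow, ← pow_mul, mul_comm q p]
  have hd : f ∣ (1 - X ^ q) ^ p := by
    rw [← e, ← h]
    exact Dvd.intro_left _ rfl
  have hd' : f ∣ (1 - X ^ q) := hf.prime.dvd_of_dvd_pow hd
  have hq : 0 < q := by
    rcases Nat.eq_zero_or_pos q with h0 | h0
    · subst h0; omega
    · exact h0
  have hdeg : ∀ N : ℕ, 0 < N → (1 - X ^ N : (ZMod p)[X]).natDegree = N := by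
    intro N hN
    have : (1 - X ^ N : (ZMod p)[X]) = -(X ^ N - C 1) := by simp
    rw [this, natDegree_neg, natDegree_X_pow_sub_C]
  have hne : ∀ N : ℕ, 0 < N → (1 - X ^ N : (ZMod p)[X]) ≠ 0 := by
    intro N hN h0
    have := hdeg N hN
    rw [h0, natDegree_zero] at this
    omega
  have h1 : f.natDegree ≤ q := by
    have := natDegree_le_of_dvd hd' (hne q hq)
    rwa [hdeg q hq] at this
  have h2 : 2 + f.natDegree = p * q := by
    have h3 := congrArg natDegree h
    rw [hdeg (p * q) (by positivity)] at h3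
    rw [← h3, natDegree_mul (pow_ne_zero _ (by
      have : (X - 1 : (ZMod p)[X]) = X - C 1 := by simp
      rw [this]; exact X_sub_C_ne_zero _)) hf.ne_zero, natDegree_pow]
    have : (X - 1 : (ZMod p)[X]) = X - C 1 := by simp
    rw [this, natDegree_X_sub_C]
  nlinarith [Nat.mul_le_mul_right q hp2]

/-- A root of an irreducible polynomial over `ZMod p` in the field it generates: its Frobenius
conjugates are distinct and are all the roots. -/
theorem exists_conj {p : ℕ} [Fact p.Prime] {f : (ZMod p)[X]} (hf : Irreducible f) :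
    ∃ (K : Type) (_ : Field K) (_ : Algebra (ZMod p) K) (_ : CharP K p) (α : K),
      (∀ x : K, x ^ (p ^ f.natDegree) = x) ∧
      (∀ i < f.natDegree, ∀ j < f.natDegree, α ^ (p ^ i) = α ^ (p ^ j) → i = j) ∧
      f.map (algebraMap (ZMod p) K) =
        C (algebraMap (ZMod p) K f.leadingCoeff) *
          ∏ i ∈ range f.natDegree, (X - C (α ^ (p ^ i))) := by
  classical
  have : Fact (Irreducible f) := ⟨hf⟩
  let K := AdjoinRoot f
  have hne := hf.ne_zero
  have : Module.Finite (ZMod p) K := (AdjoinRoot.powerBasis hne).finite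
  have : Finite K := Module.finite_of_finite (ZMod p)
  have : Fintype K := Fintype.ofFinite K
  have : CharP K p := charP_of_injective_algebraMap (algebraMap (ZMod p) K).injective p
  have hrank : Module.finrank (ZMod p) K = f.natDegree := by
    rw [(AdjoinRoot.powerBasis hne).finrank, AdjoinRoot.powerBasis_dim]
  have hcard : Fintype.card K = p ^ f.natDegree := by
    rw [Module.card_eq_pow_finrank (K := ZMod p), ZMod.card, hrank]
  let α : K := AdjoinRoot.root f
  have hfix : ∀ x : K, x ^ (p ^ f.natDegree) = x := fun x => by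
    rw [← hcard]; exact FiniteField.pow_card x
  have hpow : ∀ (i : ℕ) (x : K), (FiniteField.frobeniusAlgHom (ZMod p) K ^ i) x = x ^ (p ^ i) := by
    intro i x
    rw [AlgHom.coe_pow, FiniteField.coe_frobeniusAlgHom, pow_iterate, ZMod.card]
  have hinj : ∀ i < f.natDegree, ∀ j < f.natDegree, α ^ (p ^ i) = α ^ (p ^ j) → i = j := by
    intro i hi j hj hij
    have h1 : FiniteField.frobeniusAlgHom (ZMod p) K ^ i =
        FiniteField.frobeniusAlgHom (ZMod p) K ^ j := by
      apply AdjoinRoot.algHom_ext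
      rw [hpow, hpow]
      exact hij
    have h2 := (FiniteField.bijective_frobeniusAlgHom_pow (ZMod p) K).1
    have h3 := @h2 ⟨i, by rw [hrank]; exact hi⟩ ⟨j, by rw [hrank]; exact hj⟩ h1
    exact congrArg (fun z : Fin _ => z.1) h3
  refine ⟨K, inferInstance, inferInstance, inferInstance, α, hfix, hinj, ?_⟩
  have hroot : ∀ i, (f.map (algebraMap (ZMod p) K)).IsRoot (α ^ (p ^ i)) := by
    intro i
    rw [IsRoot, eval_map_algebraMap, ← hpow i α, Polynomial.aeval_algHom_apply]
    have : aeval α f = 0 := AdjoinRoot.eval₂_root f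
    rw [this, map_zero]
  have hmne : f.map (algebraMap (ZMod p) K) ≠ 0 :=
    (Polynomial.map_ne_zero_iff (algebraMap (ZMod p) K).injective).2 hne
  set s : Finset K := (range f.natDegree).image fun i => α ^ (p ^ i) with hs
  have hscard : s.card = f.natDegree := by
    rw [hs, card_image_of_injOn, card_range]
    intro i hi j hj hij
    exact hinj i (by simpa using hi) j (by simpa using hj) hij
  have hsub : s.val ≤ (f.map (algebraMap (ZMod p) K)).roots := by
    rw [Multiset.le_iff_subset s.nodup]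
    intro x hx
    have hx' : x ∈ s := hx
    rw [hs, Finset.mem_image] at hx'
    obtain ⟨i, _, rfl⟩ := hx'
    exact (mem_roots hmne).2 (hroot i)
  have hroots : (f.map (algebraMap (ZMod p) K)).roots = s.val := by
    symm
    apply Multiset.eq_of_le_of_card_le hsub
    rw [Finset.card_val, hscard]
    refine (card_roots' _).trans ?_
    rw [natDegree_map]
  have h4 : Multiset.card (f.map (algebraMap (ZMod p) K)).roots =
      (f.map (algebraMap (ZMod p) K)).natDegree := by
    rw [hroots, Finset.card_val, hscard, natDegree_map]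
  rw [← C_leadingCoeff_mul_prod_multiset_X_sub_C h4, leadingCoeff_map, hroots]
  congr 1
  rw [hs]
  change ∏ x ∈ (range f.natDegree).image (fun i => α ^ (p ^ i)), (X - C x) = _
  rw [prod_image]
  intro i hi j hj hij
  exact hinj i (by simpa using hi) j (by simpa using hj) hij

theorem two_mul_add_one_pow (h k : ℕ) : ∃ t, (2 * h + 1) ^ k = 4 * t + 2 * (h * k) + 1 := by
  induction k with
  | zero => exact ⟨0, by simp⟩
  | succ k ih =>
    obtain ⟨t, ht⟩ := ih
    exact ⟨t * (2 * h + 1) + h * h * k, by rw [pow_succ, ht]; ring⟩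

/-- The pairing of the conjugates, even degree: in a field with `p ^ (2 d + 2)` elements, the
quadratic character of the product of the differences `α - α ^ (p ^ (i + 1))`. -/
theorem prod_pow_even {p : ℕ} [Fact p.Prime] {K : Type} [Field K] [CharP K p] {h : ℕ}
    (hph : p = 2 * h + 1) {d : ℕ} (α : K) (hfix : ∀ x : K, x ^ (p ^ (2 * d + 2)) = x)
    (hne : ∀ i < 2 * d + 1, α ≠ α ^ (p ^ (i + 1))) (M : ℕ) (hM : 2 * M + 1 = p ^ (2 * d + 2)) :
    Even M ∧ (∏ i ∈ range (2 * d + 1), (α - α ^ (p ^ (i + 1)))) ^ M = -(-1) ^ (h * (d + 1)) := by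
  have hp := (Fact.out : p.Prime)
  have hodd : Odd p := ⟨h, hph⟩
  obtain ⟨t, ht⟩ := two_mul_add_one_pow h (d + 1)
  rw [← hph] at ht
  obtain ⟨w, hw⟩ : ∃ w, w = 2 * t + h * (d + 1) := ⟨_, rfl⟩
  have hP : p ^ (d + 1) = 2 * w + 1 := by rw [ht, hw]; ring
  have hM2 : M = (2 * w) * (w + 1) := by
    have : p ^ (2 * d + 2) = (p ^ (d + 1)) ^ 2 := by rw [← pow_mul]; congr 1; ring
    rw [this, hP] at hM
    nlinarith
  have hMeven : Even M := ⟨w * (w + 1), by rw [hM2]; ring⟩
  refine ⟨hMeven, ?_⟩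
  have hsq : ∀ x : K, x ≠ 0 → x ^ M * x ^ M = 1 := by
    intro x hx
    have h1 := hfix x
    rw [← hM, pow_succ, two_mul, pow_add] at h1
    exact mul_right_cancel₀ hx (by rw [h1, one_mul])
  have hpm : ∀ x : K, x ≠ 0 → ∀ j, (x ^ M) ^ (p ^ j) = x ^ M := by
    intro x hx j
    have ho : Odd (p ^ j) := hodd.pow
    rcases mul_self_eq_one_iff.1 (hsq x hx) with h | h
    · rw [h, one_pow]
    · rw [h, ho.neg_one_pow]
  set y : ℕ → K := fun i => α - α ^ (p ^ (i + 1)) with hy
  have hy0 : ∀ i < 2 * d + 1, y i ≠ 0 := fun i hi => sub_ne_zero.2 (hne i hi)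
  have hyp : ∀ i < 2 * d + 1, (y i) ^ (p ^ (2 * d + 1 - i)) = -y (2 * d - i) := by
    intro i hi
    simp only [hy]
    rw [sub_pow_char_pow, ← pow_mul, ← pow_add]
    have h1 : i + 1 + (2 * d + 1 - i) = 2 * d + 2 := by omega
    have h2 : 2 * d - i + 1 = 2 * d + 1 - i := by omega
    rw [h1, hfix, h2]
    ring
  have hz : ∀ i < 2 * d + 1, (y i) ^ M = (y (2 * d - i)) ^ M := by
    intro i hi
    rw [← hpm _ (hy0 i hi) (2 * d + 1 - i), ← pow_mul, mul_comm M, pow_mul, hyp i hi,
      hMeven.neg_pow]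
  have hmid : (y d) ^ M = -(-1) ^ (h * (d + 1)) := by
    have h1 := hyp d (by omega)
    have h2 : 2 * d + 1 - d = d + 1 := by omega
    have h3 : 2 * d - d = d := by omega
    rw [h2, h3, hP, pow_succ] at h1
    have h4 : (y d) ^ (2 * w) = -1 :=
      mul_right_cancel₀ (hy0 d (by omega)) (by rw [h1]; ring)
    rw [hM2, pow_mul, h4, hw, pow_succ, pow_add, pow_mul]
    simp
  rw [← prod_pow]
  have hr : 2 * d + 1 = (d + 1) + d := by ring
  rw [hr, prod_range_add, prod_range_succ]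
  have h5 : ∏ x ∈ range d, (α - α ^ (p ^ (d + 1 + x + 1))) ^ M =
      ∏ x ∈ range d, (α - α ^ (p ^ (x + 1))) ^ M := by
    rw [← prod_range_reflect]
    refine prod_congr rfl fun x hx => ?_
    have hx' := mem_range.1 hx
    have h6 := hz x (by omega)
    have h7 : 2 * d - x = d + 1 + (d - 1 - x) := by omega
    rw [h7] at h6
    exact h6.symm
  have h8 : (α - α ^ (p ^ (d + 1))) ^ M = -(-1) ^ (h * (d + 1)) := hmid
  rw [h5, h8]
  have h9 : (∏ x ∈ range d, (α - α ^ (p ^ (x + 1))) ^ M) *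
      (∏ x ∈ range d, (α - α ^ (p ^ (x + 1))) ^ M) = 1 := by
    rw [← prod_mul_distrib]
    exact prod_eq_one fun x hx => hsq _ (hy0 x (by have := mem_range.1 hx; omega))
  linear_combination (-(-1) ^ (h * (d + 1))) * h9

/-- The value of the derivative at a root. -/
theorem deriv_eq {K : Type} [Field K] {n : ℕ} {α : K} {H : K[X]} (hF : sR K n = (X - C α) * H) :
    (α - 1) ^ 2 * H.eval α = ((n : K) + 1) * ((n : K) + 2) * α ^ n * (α - 1) := by
  have h1 := sR_ident K n
  rw [hF] at h1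
  have h2 := congrArg (fun q => (derivative q).eval α) h1
  simp only [derivative_mul, derivative_pow, derivative_sub, derivative_add, derivative_C,
    derivative_X, derivative_one, eval_add, eval_sub, eval_mul, eval_pow,
    eval_C, eval_X, eval_one] at h2
  push_cast at h2
  simp only [eval_zero, sub_self, mul_zero, zero_mul, sub_zero, mul_one, add_zero,
    zero_add, one_mul] at h2
  rw [h2]
  ring

/-- The pairing of the conjugates, odd degree. -/
theorem prod_pow_odd {p : ℕ} [Fact p.Prime] {K : Type} [Field K] [CharP K p] {h : ℕ}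
    (hph : p = 2 * h + 1) {d : ℕ} (α : K) (hfix : ∀ x : K, x ^ (p ^ (2 * d + 1)) = x)
    (hne : ∀ i < 2 * d, α ≠ α ^ (p ^ (i + 1))) (M : ℕ) (hM : 2 * M + 1 = p ^ (2 * d + 1)) :
    ((-1 : K) ^ M = (-1) ^ h) ∧
      (∏ i ∈ range (2 * d), (α - α ^ (p ^ (i + 1)))) ^ M = (-1) ^ (h * d) := by
  have hodd : Odd p := ⟨h, hph⟩
  obtain ⟨t, ht⟩ := two_mul_add_one_pow h (2 * d + 1)
  rw [← hph] at ht
  have hM2 : M = 2 * (t + h * d) + h := by
    rw [ht] at hM
    nlinarith
  have hMh : (-1 : K) ^ M = (-1) ^ h := by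
    rw [hM2, pow_add, pow_mul]
    simp
  refine ⟨hMh, ?_⟩
  have hsq : ∀ x : K, x ≠ 0 → x ^ M * x ^ M = 1 := by
    intro x hx
    have h1 := hfix x
    rw [← hM, pow_succ, two_mul, pow_add] at h1
    exact mul_right_cancel₀ hx (by rw [h1, one_mul])
  have hpm : ∀ x : K, x ≠ 0 → ∀ j, (x ^ M) ^ (p ^ j) = x ^ M := by
    intro x hx j
    have ho : Odd (p ^ j) := hodd.pow
    rcases mul_self_eq_one_iff.1 (hsq x hx) with h | h
    · rw [h, one_pow]
    · rw [h, ho.neg_one_pow]
  set y : ℕ → K := fun i => α - α ^ (p ^ (i + 1)) with hy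
  have hy0 : ∀ i < 2 * d, y i ≠ 0 := fun i hi => sub_ne_zero.2 (hne i hi)
  have hyp : ∀ i < 2 * d, (y i) ^ (p ^ (2 * d - i)) = -y (2 * d - 1 - i) := by
    intro i hi
    simp only [hy]
    rw [sub_pow_char_pow, ← pow_mul, ← pow_add]
    have h1 : i + 1 + (2 * d - i) = 2 * d + 1 := by omega
    have h2 : 2 * d - 1 - i + 1 = 2 * d - i := by omega
    rw [h1, hfix, h2]
    ring
  have hz : ∀ i < 2 * d, (y i) ^ M = (-1) ^ h * (y (2 * d - 1 - i)) ^ M := by
    intro i hi
    rw [← hpm _ (hy0 i hi) (2 * d - i), ← pow_mul, mul_comm M, pow_mul, hyp i hi, neg_pow, hMh]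
  rw [← prod_pow, two_mul, prod_range_add]
  have h5 : ∏ x ∈ range d, (α - α ^ (p ^ (d + x + 1))) ^ M =
      ∏ x ∈ range d, (y (2 * d - 1 - x)) ^ M := by
    rw [← prod_range_reflect]
    refine prod_congr rfl fun x hx => ?_
    have hx' := mem_range.1 hx
    have h7 : d + (d - 1 - x) = 2 * d - 1 - x := by omega
    rw [h7]
  rw [h5, ← prod_mul_distrib]
  have h10 : ∀ x ∈ range d, (α - α ^ (p ^ (x + 1))) ^ M * (y (2 * d - 1 - x)) ^ M = (-1) ^ h := by
    intro x hx
    have hx' := mem_range.1 hx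
    have h6 : (α - α ^ (p ^ (x + 1))) ^ M = (-1) ^ h * (y (2 * d - 1 - x)) ^ M := hz x (by omega)
    rw [h6, mul_assoc, hsq _ (hy0 _ (by omega)), mul_one]
  rw [prod_congr rfl h10, prod_const, card_range, ← pow_mul]

/-- The data attached to an irreducible reduction of `s_n` modulo `p` with `p ∤ (n+1)(n+2)`. -/
theorem root_data {p : ℕ} [Fact p.Prime] {n : ℕ} (hn : 1 ≤ n)
    (h1 : ((n : ZMod p) + 1) ≠ 0) (h2 : ((n : ZMod p) + 2) ≠ 0)
    (hf : Irreducible (sR (ZMod p) n)) :
    ∃ (K : Type) (_ : Field K) (_ : Algebra (ZMod p) K) (_ : CharP K p) (α : K),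
      (∀ x : K, x ^ (p ^ n) = x) ∧ (∀ i < n - 1, α ≠ α ^ (p ^ (i + 1))) ∧ α ≠ 0 ∧
      2 * (1 - α) ^ (∑ i ∈ range n, p ^ i) = (n : K) + 2 ∧
      ((n : K) + 1) * (-1) ^ n * α ^ (∑ i ∈ range n, p ^ i) = 1 ∧
      (∏ i ∈ range (n - 1), (α - α ^ (p ^ (i + 1)))) * (α - 1) = ((n : K) + 2) * α ^ n := by
  have hp := (Fact.out : p.Prime)
  have hdeg : (sR (ZMod p) n).natDegree = n := by
    apply le_antisymm (sR_natDegree_le _ _)
    apply le_natDegree_of_ne_zero
    rw [sR_coeff _ _ _ le_rfl]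
    exact h1
  have hlc : (sR (ZMod p) n).leadingCoeff = (n : ZMod p) + 1 := by
    rw [leadingCoeff, hdeg, sR_coeff _ _ _ le_rfl]
  obtain ⟨K, i1, i2, i3, α, hfix, hinj, hprod⟩ := exists_conj hf
  rw [hdeg] at hfix hinj hprod
  rw [hlc, sR_map] at hprod
  have e1 : algebraMap (ZMod p) K ((n : ZMod p) + 1) = (n : K) + 1 := by simp
  have e2 : algebraMap (ZMod p) K ((n : ZMod p) + 2) = (n : K) + 2 := by
    rw [map_add, map_natCast, map_ofNat]
  rw [e1] at hprod
  have k1 : (n : K) + 1 ≠ 0 := by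
    rw [← e1]; exact (map_ne_zero_iff _ (algebraMap (ZMod p) K).injective).2 h1
  have k2 : (n : K) + 2 ≠ 0 := by
    rw [← e2]; exact (map_ne_zero_iff _ (algebraMap (ZMod p) K).injective).2 h2
  have a1 : 2 * (1 - α) ^ (∑ i ∈ range n, p ^ i) = (n : K) + 2 := by
    have := sR_eval_one K n
    rw [hprod, eval_mul, eval_C, eval_prod] at this
    have e3 : ∏ j ∈ range n, (X - C (α ^ p ^ j)).eval 1 = (1 - α) ^ (∑ i ∈ range n, p ^ i) := by
      rw [← prod_pow_eq_pow_sum]
      refine prod_congr rfl fun i _ => ?_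
      rw [sub_pow_char_pow]
      simp
    rw [e3] at this
    apply mul_left_cancel₀ k1
    rw [← this]
    ring
  have a2 : ((n : K) + 1) * (-1) ^ n * α ^ (∑ i ∈ range n, p ^ i) = 1 := by
    have := sR_coeff_zero K n
    rw [hprod, eval_mul, eval_C, eval_prod] at this
    have e3 : ∏ j ∈ range n, (X - C (α ^ p ^ j)).eval 0 =
        (-1) ^ n * α ^ (∑ i ∈ range n, p ^ i) := by
      rw [← prod_pow_eq_pow_sum]
      have : ∀ j ∈ range n, (X - C (α ^ p ^ j)).eval 0 = (-1) * α ^ p ^ j := by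
        intro j _; simp
      rw [prod_congr rfl this, prod_mul_distrib, prod_const, card_range]
    rw [e3] at this
    rw [mul_assoc]
    exact this
  have hS : (∑ i ∈ range n, p ^ i) ≠ 0 := by
    have : 0 < ∑ i ∈ range n, p ^ i :=
      sum_pos (fun i _ => pow_pos hp.pos i) ⟨0, mem_range.2 (by omega)⟩
    omega
  have hα : α ≠ 0 := by
    intro h0
    rw [h0, zero_pow hS, mul_zero] at a2
    exact zero_ne_one a2
  have hα1 : α - 1 ≠ 0 := by
    intro h0
    have : 1 - α = 0 := by rw [← neg_sub, h0, neg_zero]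
    rw [this, zero_pow hS, mul_zero] at a1
    exact k2 a1.symm
  refine ⟨K, i1, i2, i3, α, hfix, ?_, hα, a1, a2, ?_⟩
  · intro i hi hi'
    have := hinj 0 (by omega) (i + 1) (by omega) (by rw [pow_zero, pow_one]; exact hi')
    omega
  · obtain ⟨m, rfl⟩ : ∃ m, n = m + 1 := ⟨n - 1, by omega⟩
    rw [prod_range_succ'] at hprod
    have hF : sR K (m + 1) = (X - C α) *
        (C (((m + 1 : ℕ) : K) + 1) * ∏ i ∈ range m, (X - C (α ^ (p ^ (i + 1))))) := by
      rw [hprod, pow_zero, pow_one]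
      ring
    have := deriv_eq hF
    rw [eval_mul, eval_C, eval_prod] at this
    simp only [eval_sub, eval_X, eval_C] at this
    rw [Nat.add_sub_cancel]
    apply mul_left_cancel₀ (mul_ne_zero k1 hα1)
    linear_combination this

theorem sum_pow_mul {p h n : ℕ} (hph : p = 2 * h + 1) (M : ℕ) (hM : 2 * M + 1 = p ^ n) :
    M = (∑ i ∈ range n, p ^ i) * h := by
  have h1 : (∑ i ∈ range n, p ^ i) * (2 * h) + 1 = p ^ n := by
    clear hM
    induction n with
    | zero => simp
    | succ n ih =>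
      rw [sum_range_succ, add_mul, pow_succ]
      have e : p ^ n * p = p ^ n * (2 * h) + p ^ n := by
        rw [show p ^ n * p = p ^ n * (2 * h + 1) by rw [← hph]]
        ring
      linarith
  nlinarith

theorem exists_M {p h : ℕ} (hph : p = 2 * h + 1) (n : ℕ) : ∃ M, 2 * M + 1 = p ^ n := by
  have : Odd (p ^ n) := Odd.pow ⟨h, hph⟩
  obtain ⟨M, hM⟩ := this
  exact ⟨M, hM.symm⟩

/-- Even degree: an irreducible reduction forces `(-1) ^ e * 2 (n + 2)` to be a non-square. -/
theorem even_case {p : ℕ} [Fact p.Prime] {h e : ℕ} (hph : p = 2 * h + 1) (he : 1 ≤ e)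
    (h1 : (((2 * e : ℕ) : ZMod p) + 1) ≠ 0) (h2 : (((2 * e : ℕ) : ZMod p) + 2) ≠ 0)
    (hf : Irreducible (sR (ZMod p) (2 * e))) :
    ¬ IsSquare ((-1) ^ e * 2 * (((2 * e : ℕ) : ZMod p) + 2)) := by
  intro hsq
  obtain ⟨K, i1, i2, i3, α, hfix, hne, hα, a1, -, a3⟩ := root_data (by omega) h1 h2 hf
  obtain ⟨d, rfl⟩ : ∃ d, e = d + 1 := ⟨e - 1, by omega⟩
  have en : 2 * (d + 1) = 2 * d + 2 := by ring
  have en1 : 2 * (d + 1) - 1 = 2 * d + 1 := by omega
  obtain ⟨M, hM⟩ := exists_M hph (2 * (d + 1))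
  have hMS := sum_pow_mul hph M hM
  rw [en1] at hne a3
  obtain ⟨hMe, hY⟩ := prod_pow_even hph (d := d) α (by rw [← en]; exact hfix) hne M
    (by rw [← en]; exact hM)
  have e1 : algebraMap (ZMod p) K (((2 * (d + 1) : ℕ) : ZMod p) + 1)
      = ((2 * (d + 1) : ℕ) : K) + 1 := by
    rw [map_add, map_natCast, map_one]
  have e2 : algebraMap (ZMod p) K (((2 * (d + 1) : ℕ) : ZMod p) + 2)
      = ((2 * (d + 1) : ℕ) : K) + 2 := by
    rw [map_add, map_natCast, map_ofNat]
  set N : ZMod p := ((2 * (d + 1) : ℕ) : ZMod p) + 2 with hN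
  have hp2 : (2 : ZMod p) ≠ 0 := by
    intro h0
    have h3 : ((2 : ℕ) : ZMod p) = 0 := by exact_mod_cast h0
    rw [ZMod.natCast_eq_zero_iff] at h3
    have := Nat.le_of_dvd (by norm_num) h3
    have hp := (Fact.out : p.Prime).two_le
    omega
  have hhalf : p / 2 = h := by omega
  -- Euler's criterion
  have hEu : ((-1) ^ (d + 1) * 2 * N) ^ h = 1 := by
    rw [← hhalf]
    exact (ZMod.euler_criterion p (mul_ne_zero (mul_ne_zero (pow_ne_zero _ (by simp)) hp2)
      h2)).1 hsq
  have hfer : ∀ c : ZMod p, c ≠ 0 → c ^ h * c ^ h = 1 := by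
    intro c hc
    rw [← pow_add, ← two_mul]
    have := ZMod.pow_card_sub_one_eq_one hc
    rwa [show p - 1 = 2 * h by omega] at this
  have hSe : Even (∑ i ∈ range (2 * (d + 1)), p ^ i) := by
    have : ∀ e, Even (∑ i ∈ range (2 * e), p ^ i) := by
      intro e
      induction e with
      | zero => simp
      | succ e ih =>
        rw [show 2 * (e + 1) = 2 * e + 1 + 1 by ring, sum_range_succ, sum_range_succ, add_assoc]
        refine ih.add ⟨p ^ (2 * e) * (h + 1), ?_⟩
        rw [pow_succ]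
        nth_rw 3 [hph]
        ring
    exact this _
  have hNM : ((((2 * (d + 1) : ℕ) : K)) + 2) ^ M = 1 := by
    obtain ⟨r, hr⟩ := hSe
    rw [← e2, ← map_pow, hMS, hr, mul_comm, pow_mul, pow_add, ← mul_pow, hfer _ h2, one_pow,
      map_one]
  have hαM : (α ^ (2 * (d + 1))) ^ M = 1 := by
    have h3 : α ^ (2 * M) = 1 := by
      have := hfix α
      rw [← hM, pow_succ] at this
      exact mul_right_cancel₀ hα (by rw [this, one_mul])
    rw [← pow_mul, show 2 * (d + 1) * M = 2 * M * (d + 1) by ring, pow_mul, h3, one_pow]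
  have b1 : 2 ^ h * (1 - α) ^ M = ((((2 * (d + 1) : ℕ) : K)) + 2) ^ h := by
    rw [← a1, mul_pow, ← pow_mul, ← hMS]
  have b2 : -(-1) ^ (h * (d + 1)) * (α - 1) ^ M = 1 := by
    have := congrArg (· ^ M) a3
    simp only [mul_pow] at this
    rw [hY, hNM, hαM] at this
    rw [this, one_mul]
  have b3 : (α - 1) ^ M = (1 - α) ^ M := by
    rw [← neg_sub, hMe.neg_pow]
  rw [b3] at b2
  -- push to `K`
  have c1 := congrArg (algebraMap (ZMod p) K) hEu
  rw [map_one, map_pow, map_mul, map_mul, map_pow, map_neg, map_one, map_ofNat, e2, mul_pow,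
    mul_pow, ← pow_mul] at c1
  have c2 := congrArg (algebraMap (ZMod p) K) (hfer 2 hp2)
  rw [map_mul, map_pow, map_ofNat, map_one] at c2
  rw [← b1, show (d + 1) * h = h * (d + 1) by ring] at c1
  have c3 : (-1 : K) = 1 := by
    linear_combination c1 + (2 : K) ^ h * 2 ^ h * b2 + c2
  have c4 : (2 : K) = 0 := by linear_combination -c3
  have c5 : algebraMap (ZMod p) K 2 = 0 := by rw [map_ofNat]; exact c4
  exact hp2 ((map_eq_zero_iff _ (algebraMap (ZMod p) K).injective).1 c5)

/-- Odd degree: an irreducible reduction forces `(-1) ^ d * 2 (n + 1)` to be a square. -/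
theorem odd_case {p : ℕ} [Fact p.Prime] {h d : ℕ} (hph : p = 2 * h + 1)
    (h1 : (((2 * d + 1 : ℕ) : ZMod p) + 1) ≠ 0) (h2 : (((2 * d + 1 : ℕ) : ZMod p) + 2) ≠ 0)
    (hf : Irreducible (sR (ZMod p) (2 * d + 1))) :
    IsSquare ((-1) ^ d * 2 * (((2 * d + 1 : ℕ) : ZMod p) + 1)) := by
  obtain ⟨K, i1, i2, i3, α, hfix, hne, hα, a1, a2, a3⟩ := root_data (by omega) h1 h2 hf
  obtain ⟨M, hM⟩ := exists_M hph (2 * d + 1)
  have hMS := sum_pow_mul hph M hM
  rw [Nat.add_sub_cancel] at hne a3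
  obtain ⟨hMh, hY⟩ := prod_pow_odd hph (d := d) α hfix hne M hM
  have e1 : algebraMap (ZMod p) K (((2 * d + 1 : ℕ) : ZMod p) + 1)
      = ((2 * d + 1 : ℕ) : K) + 1 := by
    rw [map_add, map_natCast, map_one]
  have e2 : algebraMap (ZMod p) K (((2 * d + 1 : ℕ) : ZMod p) + 2)
      = ((2 * d + 1 : ℕ) : K) + 2 := by
    rw [map_add, map_natCast, map_ofNat]
  have hp2 : (2 : ZMod p) ≠ 0 := by
    intro h0
    have h3 : ((2 : ℕ) : ZMod p) = 0 := by exact_mod_cast h0
    rw [ZMod.natCast_eq_zero_iff] at h3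
    have := Nat.le_of_dvd (by norm_num) h3
    have hp := (Fact.out : p.Prime).two_le
    omega
  have hhalf : p / 2 = h := by omega
  have hfer : ∀ c : ZMod p, c ≠ 0 → c ^ h * c ^ h = 1 := by
    intro c hc
    rw [← pow_add, ← two_mul]
    have := ZMod.pow_card_sub_one_eq_one hc
    rwa [show p - 1 = 2 * h by omega] at this
  have hSo : Odd (∑ i ∈ range (2 * d + 1), p ^ i) := by
    have : ∀ e, Odd (∑ i ∈ range (2 * e + 1), p ^ i) := by
      intro e
      induction e with
      | zero => simp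
      | succ e ih =>
        rw [show 2 * (e + 1) + 1 = 2 * e + 1 + 1 + 1 by ring, sum_range_succ, sum_range_succ,
          add_assoc]
        refine ih.add_even ⟨p ^ (2 * e + 1) * (h + 1), ?_⟩
        rw [pow_succ p (2 * e + 1)]
        nth_rw 3 [hph]
        ring
    exact this _
  set Nk : K := ((2 * d + 1 : ℕ) : K) with hNk
  have hNM : (Nk + 2) ^ M = (Nk + 2) ^ h := by
    rw [← e2, ← map_pow, ← map_pow, hMS]
    congr 1
    rw [mul_comm (∑ i ∈ range (2 * d + 1), p ^ i) h, pow_mul]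
    rcases mul_self_eq_one_iff.1 (hfer _ h2) with h3 | h3
    · rw [h3, one_pow]
    · rw [h3, hSo.neg_one_pow]
  have hαM : (α ^ (2 * d + 1)) ^ M = α ^ M := by
    have h3 : α ^ (2 * M) = 1 := by
      have := hfix α
      rw [← hM, pow_succ] at this
      exact mul_right_cancel₀ hα (by rw [this, one_mul])
    rw [← pow_mul, show (2 * d + 1) * M = 2 * M * d + M by ring, pow_add, pow_mul, h3, one_pow,
      one_mul]
  have b1 : 2 ^ h * (1 - α) ^ M = (Nk + 2) ^ h := by
    rw [← a1, mul_pow, ← pow_mul, ← hMS]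
  have b4 : (Nk + 1) ^ h * (-1) ^ h * α ^ M = 1 := by
    have := congrArg (· ^ h) a2
    simp only [mul_pow, one_pow] at this
    rw [← pow_mul α, ← hMS, ← pow_mul, mul_comm (2 * d + 1) h, pow_mul,
      ← pow_mul, mul_comm h (2 * d + 1), pow_mul, Odd.neg_one_pow ⟨d, rfl⟩] at this
    exact this
  have b2 : (-1) ^ (h * d) * (α - 1) ^ M = (Nk + 2) ^ h * α ^ M := by
    have := congrArg (· ^ M) a3
    simp only [mul_pow] at this
    rw [hY, hNM, hαM] at this
    exact this
  have b3 : (α - 1) ^ M = (-1) ^ h * (1 - α) ^ M := by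
    rw [← neg_sub, neg_pow, hMh]
  rw [b3] at b2
  have c2 := congrArg (algebraMap (ZMod p) K) (hfer 2 hp2)
  rw [map_mul, map_pow, map_ofNat, map_one] at c2
  have c6 : ((-1 : K) ^ h) * (-1) ^ h = 1 := by
    rw [← mul_pow]; simp
  have hN2 : (Nk + 2) ^ h ≠ 0 := by
    rw [← e2]
    exact pow_ne_zero _ ((map_ne_zero_iff _ (algebraMap (ZMod p) K).injective).2 h2)
  have key : (-1 : K) ^ (h * d) * 2 ^ h * (Nk + 1) ^ h = 1 := by
    apply mul_left_cancel₀ hN2
    linear_combination (2 : K) ^ h * (-((-1) ^ (h * d) * (Nk + 1) ^ h) * b1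
      - (-1) ^ (h * d) * (Nk + 1) ^ h * 2 ^ h * (1 - α) ^ M * c6
      + 2 ^ h * (-1) ^ h * (Nk + 1) ^ h * b2 + (Nk + 2) ^ h * 2 ^ h * b4) + (Nk + 2) ^ h * c2
  have c7 : ((-1) ^ d * 2 * (((2 * d + 1 : ℕ) : ZMod p) + 1)) ^ h = 1 := by
    apply (algebraMap (ZMod p) K).injective
    rw [map_one, map_pow, map_mul, map_mul, map_pow, map_neg, map_one, map_ofNat, e1, mul_pow,
      mul_pow, ← pow_mul, mul_comm d h]
    exact key
  exact (ZMod.euler_criterion p (mul_ne_zero (mul_ne_zero (pow_ne_zero _ (by simp)) hp2)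
      h1)).2 (by rw [hhalf]; exact c7)

/-- If `p` divides `(n + 1)(n + 2)` and `n ≥ 4`, the reduction is reducible. -/
theorem cast_ne_zero {p : ℕ} [Fact p.Prime] {n : ℕ} (hn : 4 ≤ n)
    (hf : Irreducible (sR (ZMod p) n)) : ((n : ZMod p) + 1) ≠ 0 ∧ ((n : ZMod p) + 2) ≠ 0 := by
  have hid := sR_ident (ZMod p) n
  constructor
  · intro h0
    have h1 : ((n + 1 : ℕ) : ZMod p) = 0 := by push_cast; exact h0
    rw [ZMod.natCast_eq_zero_iff] at h1
    obtain ⟨q, hq⟩ := h1
    have h2 : (n : ZMod p) + 2 = 1 := by linear_combination h0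
    rw [h0, h2, hq] at hid
    refine not_irred_of_pow (q := q) (by omega) ?_ hf
    rw [hid]
    simp
    ring
  · intro h0
    have h1 : ((n + 2 : ℕ) : ZMod p) = 0 := by push_cast; exact h0
    rw [ZMod.natCast_eq_zero_iff] at h1
    obtain ⟨q, hq⟩ := h1
    have h2 : (n : ZMod p) + 1 = -1 := by linear_combination h0
    rw [h0, h2, hq] at hid
    refine not_irred_of_pow (q := q) (by omega) ?_ hf
    rw [hid]
    simp
    ring

/-- The polynomial `s_n(x) = 1 + 2 x + 3 x ^ 2 + ... + (n + 1) x ^ n` of the problem. -/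
noncomputable def s (n : ℕ) : ℤ[X] := ∑ k ∈ Finset.range (n + 1), C ((k : ℤ) + 1) * X ^ k

theorem criterion (n : ℕ) (hn : 4 ≤ n) (p : ℕ) (hp : p.Prime)
    (hirr : Irreducible ((s n).map (Int.castRingHom (ZMod p)))) :
    ¬ p ∣ (n + 1) * (n + 2) ∧
      (∀ e : ℕ, n = 2 * e → ¬ IsSquare (((-1) ^ e * 2 * (n + 2) : ℤ) : ZMod p)) ∧
      (∀ d : ℕ, n = 2 * d + 1 → IsSquare (((-1) ^ d * 2 * (n + 1) : ℤ) : ZMod p)) := by
  have : Fact p.Prime := ⟨hp⟩
  have hs : (s n).map (Int.castRingHom (ZMod p)) = sR (ZMod p) n := sR_map _ n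
  rw [hs] at hirr
  obtain ⟨h1, h2⟩ := cast_ne_zero hn hirr
  have hnd : ¬ p ∣ (n + 1) * (n + 2) := by
    rw [hp.dvd_mul]
    rintro (h | h)
    · apply h1
      rw [← ZMod.natCast_eq_zero_iff] at h
      push_cast at h
      exact h
    · apply h2
      rw [← ZMod.natCast_eq_zero_iff] at h
      push_cast at h
      exact h
  have hp2 : p ≠ 2 := by
    rintro rfl
    apply hnd
    rcases Nat.even_or_odd n with ⟨a, ha⟩ | ⟨a, ha⟩
    · exact Dvd.dvd.mul_left (by omega) _
    · exact Dvd.dvd.mul_right (by omega) _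
  obtain ⟨h, hph⟩ := hp.odd_of_ne_two hp2
  refine ⟨hnd, ?_, ?_⟩
  · rintro e rfl
    have := even_case hph (by omega) h1 h2 hirr
    push_cast at this ⊢
    exact this
  · rintro d rfl
    have := odd_case hph h1 h2 hirr
    push_cast at this ⊢
    exact this

/-- **Result.** (1) The `if` direction of Q2: for `n = 8 k (k + 1)`, `k ≥ 1`, the polynomial `s_n`
is reducible modulo every prime. (2) For every `n ≥ 4` and every prime `p` such that `s_n` is
irreducible modulo `p`: `p` does not divide `(n + 1)(n + 2)`, and `(-1) ^ (n/2) * 2 (n + 2)` is not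
a square modulo `p` when `n` is even, `(-1) ^ ((n-1)/2) * 2 (n + 1)` is a square modulo `p` when
`n` is odd. -/
theorem result :
    (∀ k : ℕ, 1 ≤ k → ∀ p : ℕ, p.Prime →
      ¬ Irreducible ((s (8 * k * (k + 1))).map (Int.castRingHom (ZMod p)))) ∧
    (∀ n : ℕ, 4 ≤ n → ∀ p : ℕ, p.Prime →
      Irreducible ((s n).map (Int.castRingHom (ZMod p))) →
        ¬ p ∣ (n + 1) * (n + 2) ∧
        (∀ e : ℕ, n = 2 * e → ¬ IsSquare (((-1) ^ e * 2 * (n + 2) : ℤ) : ZMod p)) ∧
        (∀ d : ℕ, n = 2 * d + 1 → IsSquare (((-1) ^ d * 2 * (n + 1) : ℤ) : ZMod p))) := by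
  refine ⟨?_, criterion⟩
  intro k hk p hp hirr
  have h4 : 4 ≤ 8 * k * (k + 1) := by nlinarith
  obtain ⟨-, h, -⟩ := criterion _ h4 p hp hirr
  apply h (4 * k * (k + 1)) (by ring)
  refine ⟨((2 * (2 * k + 1) : ℤ) : ZMod p), ?_⟩
  have he : (-1 : ℤ) ^ (4 * k * (k + 1)) = 1 := by
    rw [show 4 * k * (k + 1) = 2 * (2 * k * (k + 1)) by ring, pow_mul]
    norm_num
  rw [he]
  push_cast
  ring

end Pool.Agent.Results.MP_2f4170_nt.ReducibleModEveryPrime
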